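import Mathlib
import Pool.Agent.H12.Upc

set_option autoImplicit false

namespace Pool.Agent.Results.MP_6670e5_co.Three

/-- the word `w` with wildcards (`none`) covers the word `u` at position `i` -/
def CoversAt {a n : ℕ} (w : List (Option (Fin a))) (i : ℕ) (u : Fin n → Fin a) : Prop :=
  i + n ≤ w.length ∧ ∀ j : Fin n, w[i + j]? = some none ∨ w[i + j]? = some (some (u j))

/-- every word of length `n` is covered at exactly one position -/
def Universal {a : ℕ} (n : ℕ) (w : List (Option (Fin a))) : Prop :=
  ∀ u : Fin n → Fin a, ∃! i : ℕ, CoversAt w i u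

/-- `w` is not the word of `n` wildcards, and it contains a wildcard -/
def NonTriv {a : ℕ} (n : ℕ) (w : List (Option (Fin a))) : Prop :=
  w ≠ List.replicate n none ∧ none ∈ w

/-- every window of length `n` contains exactly `d` wildcards -/
def HasDiam {a : ℕ} (n : ℕ) (w : List (Option (Fin a))) (d : ℕ) : Prop :=
  ∀ i : ℕ, i + n ≤ w.length → ((w.drop i).take n).count none = d

open Pool.Agent.H12.Upc

def W : List (Option (Fin 2)) := (List.range 523).map g

theorem W_len : W.length = 523 := by simp [W]

theorem W_get (m : ℕ) (h : m < 523) : W[m]? = some (g m) := by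
  simp [W, List.getElem?_range h]

theorem result : ∃ (a n d : ℕ) (w : List (Option (Fin a))),
    2 ≤ a ∧ 1 ≤ n ∧ Universal n w ∧ NonTriv n w ∧ HasDiam n w d ∧ 2 ≤ d := by
  refine ⟨2, 12, 3, W, le_rfl, by norm_num, fun w => ?_, ⟨fun h => ?_, ?_⟩, fun i hi => ?_,
    by norm_num⟩
  · obtain ⟨i, hi⟩ := chk_spec (fun t => if h : t < 12 then w ⟨t, h⟩ else 0) 12 0 _ chk_true
    have key : ∀ x : ℕ, CoversAt W x w ↔ x = i := by
      intro x
      rw [← hi, List.mem_range, CoversAt, W_len]
      constructor
      · rintro ⟨h0, h⟩
        refine ⟨by omega, fun t ht => ?_⟩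
        have := h ⟨t, ht⟩
        rw [W_get _ (by simp only; omega)] at this
        simpa [ok, ht] using this
      · rintro ⟨h0, h⟩
        refine ⟨by omega, fun j => ?_⟩
        have := h j j.2
        rw [W_get _ (by omega)]
        simpa [ok, j.2] using this
    exact ⟨i, (key i).2 rfl, fun y hy => (key y).1 hy⟩
  · have := congrArg List.length h
    rw [W_len] at this
    simp at this
  · exact List.mem_map.2 ⟨0, by simp, by decide +kernel⟩
  · have : ∀ i < 512, ((W.drop i).take 12).count none = 3 := by decide +kernel
    exact this i (by rw [W_len] at hi; omega)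

end Pool.Agent.Results.MP_6670e5_co.Three
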